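/-
ROW RL_Hfd (about 110 lines). Hoeffding's inequality in the setting `RSub`. Uses indep (and RSub.total) as stated.
PROOF. For `s > 0`, `|x| ≤ M`: `exp (s x) ≤ cosh (s M) + (x / M) sinh (s M)` (convexity of exp between `-M` and `M`: `convexOn_exp`, `x = ((M+x)/(2M)) M + ((M-x)/(2M)) (-M)`). So `E exp (s f_i) ≤ cosh (s M) ≤ exp (s² M² / 2)` (`∑ w = 1`, `E f_i = 0`; `Real.cosh_le_exp_half_sq`).
 indep for `exp (s f_i)`: `E exp (s ∑_i f_i) = ∏ E exp (s f_i) ≤ exp (#I s² M² / 2)` (`Real.exp_sum`, `Finset.prod_le_prod`, all factors `≥ 0`). Markov: `pr (t < ∑ f_i) exp (s t) ≤ E exp (s ∑ f_i)`; `s = t / (#I M²)`: `pr ≤ exp (- t² / (2 #I M²))`. The same for `- f_i`. `pr_or_le`.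
-/
import Pool.Agent.H11.RD.Ind

set_option autoImplicit false
set_option linter.unusedSectionVars false

open Finset

namespace Pool.Agent.H11.RD

open Pool.Agent.H9.KR

variable {Ω E : Type} [Fintype Ω] [DecidableEq E]

lemma Hfd_exp {x M s : ℝ} (hM : 0 < M) (hx : |x| ≤ M) :
    Real.exp (s * x) ≤ Real.cosh (s * M) + x / M * Real.sinh (s * M) := by
  obtain ⟨h1, h2⟩ := abs_le.1 hx
  have hc : ∀ a b : ℝ, 0 ≤ a → 0 ≤ b → a + b = 1 →
      Real.exp (a • (s * M) + b • (-(s * M))) ≤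
        a • Real.exp (s * M) + b • Real.exp (-(s * M)) := fun a b ha hb hab =>
    convexOn_exp.2 (Set.mem_univ (s * M)) (Set.mem_univ (-(s * M))) ha hb hab
  have h3 := hc ((M + x) / (2 * M)) ((M - x) / (2 * M))
    (div_nonneg (by linarith) (by linarith)) (div_nonneg (by linarith) (by linarith))
    (by field_simp; ring)
  have h4 : ((M + x) / (2 * M)) • (s * M) + ((M - x) / (2 * M)) • (-(s * M)) = s * x := by
    rw [smul_eq_mul, smul_eq_mul]
    field_simp
    ring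
  rw [h4, smul_eq_mul, smul_eq_mul] at h3
  refine h3.trans (le_of_eq ?_)
  rw [Real.cosh_eq, Real.sinh_eq]
  field_simp
  ring

lemma Hfd_one {w : Ω → ℝ} {R : Ω → Finset E} {E₀ : Finset E} {p : ℝ} (h : RSub w R E₀ p)
    {ι : Type} [DecidableEq ι] (I : Finset ι) (hI : I.Nonempty) (A : ι → Finset E)
    (hA : ∀ i ∈ I, A i ⊆ E₀)
    (hdis : ∀ i ∈ I, ∀ j ∈ I, i ≠ j → Disjoint (A i) (A j)) (f : ι → Finset E → ℝ) (M : ℝ)
    (hM : 0 < M) (hf : ∀ i ∈ I, ∀ S ⊆ A i, |f i S| ≤ M)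
    (h0 : ∀ i ∈ I, ∑ o, w o * f i (R o ∩ A i) = 0) (t : ℝ) (ht : 0 < t) :
    pr w (fun o => t < ∑ i ∈ I, f i (R o ∩ A i)) ≤
      Real.exp (-(t ^ 2 / (2 * I.card * M ^ 2))) := by
  classical
  have hn : (0 : ℝ) < I.card := by exact_mod_cast Finset.card_pos.2 hI
  obtain ⟨s, hs⟩ : ∃ s : ℝ, s = t / (I.card * M ^ 2) := ⟨_, rfl⟩
  have hs0 : 0 < s := by rw [hs]; positivity
  -- the exponential moment
  have hE : ∑ o, w o * Real.exp (s * ∑ i ∈ I, f i (R o ∩ A i)) ≤
      Real.exp (s ^ 2 * M ^ 2 / 2) ^ I.card := by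
    have h1 : ∑ o, w o * Real.exp (s * ∑ i ∈ I, f i (R o ∩ A i)) =
        ∑ o, w o * ∏ i ∈ I, Real.exp (s * f i (R o ∩ A i)) := by
      refine Finset.sum_congr rfl fun o _ => ?_
      rw [Finset.mul_sum, Real.exp_sum]
    have h1' := indep h I A hA hdis (fun i S => Real.exp (s * f i S))
    rw [h1, h1', ← Finset.prod_const]
    refine Finset.prod_le_prod ?_ ?_
    · intro i _
      exact Finset.sum_nonneg fun o _ => mul_nonneg (h.nonneg o) (Real.exp_pos _).le
    · intro i hi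
      have h2 : ∑ o, w o * Real.exp (s * f i (R o ∩ A i)) ≤
          ∑ o, w o * (Real.cosh (s * M) + f i (R o ∩ A i) / M * Real.sinh (s * M)) := by
        refine Finset.sum_le_sum fun o _ => mul_le_mul_of_nonneg_left ?_ (h.nonneg o)
        exact Hfd_exp hM (hf i hi _ Finset.inter_subset_right)
      have h3 : ∑ o, w o * (Real.cosh (s * M) + f i (R o ∩ A i) / M * Real.sinh (s * M)) =
          Real.cosh (s * M) := by
        have h4 : ∀ o, w o * (Real.cosh (s * M) + f i (R o ∩ A i) / M * Real.sinh (s * M)) =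
            w o * Real.cosh (s * M) + (w o * f i (R o ∩ A i)) * (Real.sinh (s * M) / M) := by
          intro o
          field_simp
        rw [Finset.sum_congr rfl fun o _ => h4 o, Finset.sum_add_distrib, ← Finset.sum_mul,
          ← Finset.sum_mul, h.total, h0 i hi, one_mul, zero_mul, add_zero]
      rw [h3] at h2
      refine h2.trans ((Real.cosh_le_exp_half_sq _).trans (le_of_eq ?_))
      rw [mul_pow]
  -- Markov
  have hMk : pr w (fun o => t < ∑ i ∈ I, f i (R o ∩ A i)) * Real.exp (s * t) ≤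
      ∑ o, w o * Real.exp (s * ∑ i ∈ I, f i (R o ∩ A i)) := by
    unfold pr
    rw [Finset.sum_mul]
    refine Finset.sum_le_sum fun o _ => ?_
    by_cases h5 : t < ∑ i ∈ I, f i (R o ∩ A i)
    · rw [if_pos h5]
      refine mul_le_mul_of_nonneg_left (Real.exp_le_exp.2 ?_) (h.nonneg o)
      exact mul_le_mul_of_nonneg_left h5.le hs0.le
    · rw [if_neg h5, zero_mul]
      exact mul_nonneg (h.nonneg o) (Real.exp_pos _).le
  have h6 := hMk.trans hE
  rw [← Real.exp_nat_mul] at h6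
  have h7 : Real.exp (-(t ^ 2 / (2 * I.card * M ^ 2))) * Real.exp (s * t) =
      Real.exp (I.card * (s ^ 2 * M ^ 2 / 2)) := by
    rw [← Real.exp_add]
    congr 1
    rw [hs]
    field_simp
    ring
  rw [← h7] at h6
  exact le_of_mul_le_mul_right h6 (Real.exp_pos _)

theorem hoeffding {w : Ω → ℝ} {R : Ω → Finset E} {E₀ : Finset E} {p : ℝ} (h : RSub w R E₀ p)
    {ι : Type} [DecidableEq ι] (I : Finset ι) (hI : I.Nonempty) (A : ι → Finset E)
    (hA : ∀ i ∈ I, A i ⊆ E₀)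
    (hdis : ∀ i ∈ I, ∀ j ∈ I, i ≠ j → Disjoint (A i) (A j)) (f : ι → Finset E → ℝ) (M : ℝ)
    (hM : 0 < M) (hf : ∀ i ∈ I, ∀ S ⊆ A i, |f i S| ≤ M)
    (h0 : ∀ i ∈ I, ∑ o, w o * f i (R o ∩ A i) = 0) (t : ℝ) (ht : 0 < t) :
    pr w (fun o => t < |∑ i ∈ I, f i (R o ∩ A i)|) ≤
      2 * Real.exp (-(t ^ 2 / (2 * I.card * M ^ 2))) := by
  have h1 := Hfd_one h I hI A hA hdis f M hM hf h0 t ht
  have h2 := Hfd_one h I hI A hA hdis (fun i S => -f i S) M hM
    (fun i hi S hS => by rw [abs_neg]; exact hf i hi S hS)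
    (fun i hi => by
      have h3 : ∑ o, w o * -f i (R o ∩ A i) = -∑ o, w o * f i (R o ∩ A i) := by
        rw [← Finset.sum_neg_distrib]
        exact Finset.sum_congr rfl fun o _ => mul_neg _ _
      rw [h3, h0 i hi, neg_zero]) t ht
  have h4 : pr w (fun o => t < |∑ i ∈ I, f i (R o ∩ A i)|) ≤
      pr w (fun o => t < ∑ i ∈ I, f i (R o ∩ A i) ∨ t < ∑ i ∈ I, -f i (R o ∩ A i)) := by
    refine pr_mono h.nonneg fun o ho => ?_
    rw [Finset.sum_neg_distrib]
    exact lt_abs.1 ho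
  refine h4.trans ((pr_or_le h.nonneg _ _).trans ?_)
  rw [two_mul]
  exact add_le_add h1 h2

end Pool.Agent.H11.RD
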