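/-
ROW RL_Ifc (helper82). What sections 6 - 8 use from sections 2 - 3 of /team-store/H11_RL.md, for a rate `B` and a slack `l` with `c.TOK L B l` (both pairs `(β², c.l)`, `(B1, l1)` of Num.OK).
`rho = M^(L-u) B`, `η = 1/e0`, `th = l / rho`. `Fn` = fine: violates at no nonempty set of rows outside `U`. `natT` = the choices on the rows `T` over `α` on `U`, adjacent to `Φ`.
nat_card: from the counting of choices. mv_nat: the violation lemma. mv_full: for `z ∈ natT T` the points of the cell that agree with `z` on `T` form the cell of `U ∪ T`, `z`: at most `8^L Tot / W (u + t)`, and `#natT T ≤ 8^L W (u + t) / W u`, `Tot / W u ≤ 8^L #cell`.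
mom2: second moment of the number of members of the family adjacent to `z` (`Vf` with `A = ∅`; T2 moment with two copies). fine_up, fine_one: Fourier expansion (`2^(L w) / e0 ≤ 1/8`). ts_star: section 3, COR (`h` is larger than all constants, Num.OK.FQ).
-/
import Pool.Agent.H82.RD.Tst
import Pool.Agent.H82.RD.Fne

set_option autoImplicit false
set_option linter.unusedSectionVars false

open Finset

namespace Pool.Agent.H49.RD

open Pool.Agent.H49.RG (Cl Ad Eqn nbr cell pts mem_cell mem_nbr mem_pts cell_sub cell_mono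
  cell_anti cell_cell cell_eq)
open Pool.Agent.H82.RD (HH ZZ Vio MVio NoVio Fam natT)

variable {ν ω : Type} [Fintype ν] [DecidableEq ν] [DecidableEq ω] {L g : ℕ}

/-- The rate. -/
noncomputable def rho (c : Num) (L u : ℕ) (B : ℝ) : ℝ := (1 / c.p) ^ (L - u) * B

/-- `x` is fine: it violates at no nonempty set of rows outside `U`. -/
def Fn (P : Pl ν L) (c : Num) (B l : ℝ) (U : Finset (Fin L)) (O : Finset ω) (y : ω → Fin g → ν)
    (x : Fin L → ν) : Prop :=
  ∀ T : Finset (Fin L), T.Nonempty → Disjoint T U →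
    ¬ Vio P.G (1 / c.p) c.t0 c.D O y (1 / c.e0) (l / rho c L U.card B) T x

open Classical in
/-- `M ^ ((g - |A|) |T|)` times the proportion of the `o` with `y o = q` on `A` and `y o j`,
`j ∉ A`, adjacent to `z` in the rows `T`. -/
noncomputable def Vf (P : Pl ν L) (c : Num) (O : Finset ω) (y : ω → Fin g → ν)
    (T : Finset (Fin L)) (A : Finset (Fin g)) (q : Fin g → ν) (z : Fin L → ν) : ℝ :=
  (1 / c.p) ^ ((g - A.card) * T.card) *
    ((O.filter (fun o => (∀ j ∈ A, y o j = q j) ∧ ∀ i ∈ T, ∀ j ∉ A, P.G.Adj (z i) (y o j))).card : ℝ) /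
      O.card

lemma Fn_iff {P : Pl ν L} {c : Num} {B l : ℝ} {U : Finset (Fin L)} {O : Finset ω}
    {y : ω → Fin g → ν} {x : Fin L → ν} :
    Fn P c B l U O y x ↔ H82.RD.Fn P c B l U O y x := by
  constructor
  · intro h T hT hT0 hv
    exact h T hT0 (disjoint_left.2 fun i hi hiU => (mem_compl.1 (hT hi)) hiU) hv
  · intro h T hT0 hT hv
    exact h T (fun i hi => mem_compl.2 (disjoint_left.1 hT hi)) hT0 hv

theorem nat_card {P : Pl ν L} {c : Num} {R : ℕ} (h : P.OK c) (hc : c.OK R L)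
    (U : Finset (Fin L)) (α : Fin L → ν) (Φ : Finset ν) (hΦ : Φ ⊆ P.Out) (hΦc : Φ.card ≤ 3 * L)
    (hv : P.Val U α Φ) (T : Finset (Fin L)) (hT : Disjoint T U) :
    ((natT P U α Φ T).card : ℝ) * c.W L U.card Φ.card ≤ 8 ^ L * c.W L (U.card + T.card) Φ.card ∧
    c.W L (U.card + T.card) Φ.card ≤ 8 ^ L * ((natT P U α Φ T).card * c.W L U.card Φ.card) := by
  exact H82.RD.nat_card h hc U α Φ hΦ hΦc hv T hT

open Classical in
theorem mv_nat {P : Pl ν L} {c : Num} {R : ℕ} (h : P.OK c) (hc : c.OK R L)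
    {B l : ℝ} (ht : c.TOK L B l)
    (U : Finset (Fin L)) (α : Fin L → ν) (Φ : Finset ν) (hΦ : Φ ⊆ P.Out) (hΦc : Φ.card ≤ 3 * L)
    (hv : P.Val U α Φ) (hg : g ≤ c.w) (O : Finset ω) (y : ω → Fin g → ν)
    (hy : Fam P U α Φ O y (rho c L U.card B)) (T : Finset (Fin L)) (hT0 : T.Nonempty)
    (hT : Disjoint T U) :
    (((natT P U α Φ T).filter (fun z =>
      MVio P.G (1 / c.p) c.t0 c.D O y (1 / c.e0) (l / rho c L U.card B) T z)).card : ℝ) *
      c.h ^ (8 * min T.card c.t0) ≤ (natT P U α Φ T).card := by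
  exact H82.RD.mv_nat h hc ht U α Φ hΦ hΦc hv hg O y hy T hT0 hT

open Classical in
theorem mv_full {P : Pl ν L} {c : Num} {R : ℕ} (h : P.OK c) (hc : c.OK R L)
    {B l : ℝ} (ht : c.TOK L B l)
    (U : Finset (Fin L)) (α : Fin L → ν) (Φ : Finset ν) (hΦ : Φ ⊆ P.Out) (hΦc : Φ.card ≤ 3 * L)
    (hv : P.Val U α Φ) (hg : g ≤ c.w) (O : Finset ω) (y : ω → Fin g → ν)
    (hy : Fam P U α Φ O y (rho c L U.card B)) (T : Finset (Fin L)) (hT0 : T.Nonempty)
    (hT : Disjoint T U) :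
    (((cell P.G (pts P.G P.V) U α Φ).filter (fun z =>
      MVio P.G (1 / c.p) c.t0 c.D O y (1 / c.e0) (l / rho c L U.card B) T z)).card : ℝ) *
      c.h ^ (8 * min T.card c.t0) ≤ 512 ^ L * (cell P.G (pts P.G P.V) U α Φ).card := by
  exact H82.RD.mv_full h hc ht U α Φ hΦ hΦc hv hg O y hy T hT0 hT

theorem mom2 {P : Pl ν L} {c : Num} {R : ℕ} (h : P.OK c) (hc : c.OK R L)
    {B l : ℝ} (ht : c.TOK L B l)
    (U : Finset (Fin L)) (α : Fin L → ν) (Φ : Finset ν) (hΦ : Φ ⊆ P.Out) (hΦc : Φ.card ≤ 3 * L)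
    (hv : P.Val U α Φ) (hg : g ≤ c.w) (O : Finset ω) (y : ω → Fin g → ν)
    (hy : Fam P U α Φ O y (rho c L U.card B)) (T : Finset (Fin L)) (hT : Disjoint T U)
    (q : Fin g → ν) :
    ∑ z ∈ natT P U α Φ T, Vf P c O y T ∅ q z ^ 2 ≤ 256 ^ L * (natT P U α Φ T).card := by
  exact H82.RD.mom2 h hc ht U α Φ hΦ hΦc hv hg O y hy T hT q

theorem fine_up {P : Pl ν L} {c : Num} {R : ℕ} (hc : c.OK R L)
    {B l : ℝ} (ht : c.TOK L B l) (U : Finset (Fin L)) (α : Fin L → ν) (Φ : Finset ν)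
    (hg : g ≤ c.w) (O : Finset ω) (y : ω → Fin g → ν)
    (hy : Fam P U α Φ O y (rho c L U.card B)) (x : Fin L → ν) (hx : Fn P c B l U O y x)
    (A : Finset (Fin g)) (q : Fin g → ν) :
    Vf P c O y Uᶜ A q x ≤ 2 * (l / rho c L U.card B) ^ A.card := by
  exact H82.RD.fine_up hc ht U α Φ hg O y hy x (Fn_iff.1 hx) A q

theorem fine_one {P : Pl ν L} {c : Num} {R : ℕ} (hc : c.OK R L)
    {B l : ℝ} (ht : c.TOK L B l) (U : Finset (Fin L)) (α : Fin L → ν) (Φ : Finset ν)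
    (hg : g ≤ c.w) (O : Finset ω) (y : ω → Fin g → ν)
    (hy : Fam P U α Φ O y (rho c L U.card B)) (x : Fin L → ν) (hx : Fn P c B l U O y x)
    (q : Fin g → ν) :
    3 / 4 ≤ Vf P c O y Uᶜ ∅ q x ∧ Vf P c O y Uᶜ ∅ q x ≤ 5 / 4 := by
  exact H82.RD.fine_one hc ht U α Φ hg O y hy x (Fn_iff.1 hx) q

open Classical in
/-- TS*: almost all points of a spread set are fine. -/
theorem ts_star {P : Pl ν L} {c : Num} {R : ℕ} (h : P.OK c) (hc : c.OK R L)
    {B l : ℝ} (ht : c.TOK L B l)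
    (X : Finset (Fin L → ν)) (U : Finset (Fin L)) (α : Fin L → ν) (Φ : Finset ν) (Z G : ℝ)
    (hX : P.Sp c X U α Φ Z G) (hZ : 2 ^ (20 * L) * Z ≤ c.h ^ (4 * c.t0)) (hG : G ≤ c.h ^ 3)
    (hg : g ≤ c.w) (O : Finset ω) (y : ω → Fin g → ν)
    (hy : Fam P U α Φ O y (rho c L U.card B)) :
    ((X.filter (fun x => ¬ Fn P c B l U O y x)).card : ℝ) * 16 ≤ X.card := by
  have h1 := H82.RD.ts_star h hc ht X U α Φ Z G hX hZ hG hg O y hy
  have e : X.filter (fun x => ¬ Fn P c B l U O y x) =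
      X.filter (fun x => ¬ H82.RD.Fn P c B l U O y x) :=
    filter_congr fun x _ => not_congr Fn_iff
  rw [e]
  exact h1

end Pool.Agent.H49.RD
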