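/-
ROW RL_Exl (about 100 lines). Section 7 with families depending on the letters of `x` in the rows `U'` (hcongr). Uses exc_one (H49/RL/Exc).
PROOF. The cell of `U, α, Φ` is the disjoint union of the cells of `U', x0, Φ` over the classes of points `x0` that agree on `U'` (fibres of the map restriction to `U'`, for instance `x ↦ fun i => if i ∈ U' then x i else α i`; `Finset.card_eq_sum_card_fiberwise`): a point `x` of the cell that agrees with `x0` on `U'` lies in `cell P.G (pts P.G P.V) U' x0 Φ`,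
 and conversely (`U ⊆ U'`, cell_anti). In every such cell (`P.Val U' x0 Φ` by val_of_mem, as `x0` lies in it) exc_one for `M x0` (`M x = M x0`) gives: bad part * `B^KX ≤ 128^L *` size of the fibre. Sum.
-/
import Pool.Agent.H11.RD.Ifc
import Pool.Agent.H49.RD.Exc

set_option autoImplicit false
set_option linter.unusedSectionVars false

open Finset

namespace Pool.Agent.H49.RD

open Pool.Agent.H49.RG (Cl Ad Eqn nbr cell pts mem_cell mem_nbr mem_pts cell_sub cell_mono
  cell_anti cell_cell cell_eq)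

variable {ν : Type} [Fintype ν] [DecidableEq ν] {L : ℕ}

open Classical in
theorem exc_cells {P : Pl ν L} {c : Num} {R : ℕ} (h : P.OK c) (hc : c.OK R L) (B : ℝ)
    (hB1 : 1 ≤ B) (hBk : (1 + 1 / B) ^ c.K1 ≤ 2)
    (U U' : Finset (Fin L)) (hU : U ⊆ U') (α : Fin L → ν) (Φ : Finset ν) (hΦ : Φ ⊆ P.Out)
    (hΦc : Φ.card ≤ 3 * L) (M : (Fin L → ν) → Finset (Finset ν)) (g : ℕ) (hg1 : 1 ≤ g)
    (hg2 : g ≤ c.w) (hcongr : ∀ x x' : Fin L → ν, Eqn U' x x' → M x = M x')
    (hM1 : ∀ x, ∀ γ ∈ M x, γ ⊆ P.Out ∧ Disjoint γ Φ ∧ γ.card = g)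
    (hM : ∀ x ∈ cell P.G (pts P.G P.V) U α Φ, ∀ Q : Finset ν,
      (((M x).filter (fun γ => Q ⊆ γ)).card : ℝ) *
      rho c L U'.card B ^ Q.card ≤ rho c L U'.card B ^ g) :
    (((cell P.G (pts P.G P.V) U α Φ).filter (fun x =>
      B ^ (2 * g) < (((M x).filter (fun γ => Ad P.G univ x γ)).card : ℝ))).card : ℝ) *
      B ^ c.KX ≤
      128 ^ L * (cell P.G (pts P.G P.V) U α Φ).card := by
  set N := cell P.G (pts P.G P.V) U α Φ with hN
  obtain ⟨r, hr⟩ : ∃ r : (Fin L → ν) → (Fin L → ν), ∀ x, r x = fun j => if j ∈ U' then x j else α j :=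
    ⟨fun x j => if j ∈ U' then x j else α j, fun _ => rfl⟩
  have hr1 : ∀ x x', r x = r x' ↔ Eqn U' x x' := by
    intro x x'
    rw [hr, hr]
    constructor
    · intro h1 j hj
      have := congrFun h1 j
      simpa [hj] using this
    · intro h1
      funext j
      by_cases hj : j ∈ U'
      · simp [hj, h1 j hj]
      · simp [hj]
  set X := N.filter (fun x =>
      B ^ (2 * g) < (((M x).filter (fun γ => Ad P.G univ x γ)).card : ℝ)) with hX
  have h1 : (X.card : ℝ) = ∑ β ∈ N.image r, ((X.filter (fun x => r x = β)).card : ℝ) := by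
    rw [card_eq_sum_card_fiberwise (f := r) (t := N.image r)]
    · push_cast; rfl
    · intro x hx
      exact mem_image_of_mem r (mem_filter.1 hx).1
  have h2 : (N.card : ℝ) = ∑ β ∈ N.image r, ((N.filter (fun x => r x = β)).card : ℝ) := by
    rw [card_eq_sum_card_fiberwise (f := r) (t := N.image r)]
    · push_cast; rfl
    · intro x hx
      exact mem_image_of_mem r hx
  rw [h1, h2, sum_mul, mul_sum]
  refine sum_le_sum fun β hβ => ?_
  obtain ⟨x0, hx0, rfl⟩ := mem_image.1 hβ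
  have hx0' := mem_cell.1 hx0
  have hv : P.Val U' x0 Φ := by
    have hp := mem_pts.1 hx0'.1
    exact ⟨fun j _ => hp.1 j, fun i _ j _ hij => hp.2 i j hij,
      fun j _ v hv => hx0'.2.2 j (mem_univ j) v hv⟩
  have hfib : N.filter (fun x => r x = r x0) = cell P.G (pts P.G P.V) U' x0 Φ := by
    ext x
    rw [mem_filter, hr1]
    constructor
    · rintro ⟨h3, h4⟩
      exact mem_cell.2 ⟨(mem_cell.1 h3).1, h4, (mem_cell.1 h3).2.2⟩
    · intro h6
      obtain ⟨h3, h4, h5⟩ := mem_cell.1 h6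
      exact ⟨mem_cell.2 ⟨h3, fun j hj => (h4 j (hU hj)).trans (hx0'.2.1 j hj), h5⟩, h4⟩
  have hone := exc_one h hc B hB1 hBk U' x0 Φ hΦ hΦc hv (M x0) g hg1 hg2 (hM1 x0)
    (fun Q => hM x0 hx0 Q)
  rw [hfib]
  refine le_trans (mul_le_mul_of_nonneg_right ?_ (by positivity)) hone
  rw [Nat.cast_le]
  refine card_le_card fun x hx => ?_
  rw [mem_filter] at hx
  obtain ⟨hx1, hx2⟩ := hx
  obtain ⟨hx3, hx4⟩ := mem_filter.1 hx1
  rw [mem_filter]
  refine ⟨?_, ?_⟩
  · rw [← hfib]
    exact mem_filter.2 ⟨hx3, hx2⟩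
  · rw [← hcongr x x0 ((hr1 x x0).1 hx2)]
    exact hx4

end Pool.Agent.H49.RD
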