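/-
ROW RL_Fml (about 130 lines). Families of sets of letters with large codegrees.
extremal. The function `Q'' ↦ #{γ ∈ M | Q'' ⊆ γ} ρ^|Q''|` on all finite sets has a maximum at some `Q'` (`Finset.exists_max_image univ`). Its value is `≥` the value at `Q`, so `> ρ^g > 0`, so some `γ ∈ M` contains `Q'`, `|Q'| ≤ g`; if `|Q'| = g` then `{γ ∈ M | Q' ⊆ γ} = {Q'}` has at most one member and the value is `≤ ρ^g`: contradiction.
enum_tup. For `γ ∈ M` let `y γ` enumerate `γ \ Q` (it has `g - |Q|` elements: `Finset.orderEmbOfFin`-like; use `(γ \ Q).equivFinOfCardEq` or `Finset.exists..`; off `M` arbitrary, `ν` is nonempty if needed since `M` is nonempty and ... if `g - |Q| = 0` use `Fin.elim0`: for instance define `y γ j` by `if h : γ ∈ M then (equiv j : ν) else` the value for a fixed member `γ0` of `M`). injective; in `Out`; `∉ Φ ∪ Q`; adjacent.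
 rate: let `A, q` be given and let some `γ1 ∈ M` have `y γ1 = q` on `A` (otherwise the count is 0). Then `q` is injective on `A` with values in `γ1 \ Q`, so `Q'' = Q ∪ A.image q` has `|Q| + |A|` elements, and `y γ = q` on `A` implies `Q'' ⊆ γ`. hrate for `Q''`: `count ρ^(|Q| + |A|) ≤ #M ρ^|Q|`; cancel `ρ^|Q| > 0`.
-/
import Pool.Agent.H11.RD.Ifc

set_option autoImplicit false
set_option linter.unusedSectionVars false

open Finset

namespace Pool.Agent.H49.RD

open Pool.Agent.H49.RG (Cl Ad Eqn nbr cell pts mem_cell mem_nbr mem_pts cell_sub cell_mono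
  cell_anti cell_cell cell_eq)

open Pool.Agent.H82.RD (HH ZZ Vio MVio NoVio Fam natT)

variable {ν : Type} [Fintype ν] [DecidableEq ν] {L : ℕ}

theorem extremal (M : Finset (Finset ν)) (g : ℕ) (hM : ∀ γ ∈ M, γ.card = g) (ρ : ℝ) (hρ : 1 ≤ ρ)
    (Q : Finset ν) (hQ : ρ ^ g < ((M.filter (fun γ => Q ⊆ γ)).card : ℝ) * ρ ^ Q.card) :
    ∃ Q' : Finset ν, Q'.card < g ∧ (M.filter (fun γ => Q' ⊆ γ)).Nonempty ∧
      ∀ Q'' : Finset ν, ((M.filter (fun γ => Q'' ⊆ γ)).card : ℝ) * ρ ^ Q''.card ≤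
        ((M.filter (fun γ => Q' ⊆ γ)).card : ℝ) * ρ ^ Q'.card := by
  obtain ⟨Q', -, hmax⟩ := Finset.exists_max_image (univ : Finset (Finset ν))
    (fun Q'' : Finset ν => ((M.filter (fun γ => Q'' ⊆ γ)).card : ℝ) * ρ ^ Q''.card)
    ⟨∅, mem_univ _⟩
  have h1 : ρ ^ g < ((M.filter (fun γ => Q' ⊆ γ)).card : ℝ) * ρ ^ Q'.card :=
    lt_of_lt_of_le hQ (hmax Q (mem_univ _))
  have hρ0 : 0 < ρ := by linarith
  have hne : (M.filter (fun γ => Q' ⊆ γ)).Nonempty := by
    rw [nonempty_iff_ne_empty]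
    intro h0
    rw [h0] at h1
    simp only [card_empty, Nat.cast_zero, zero_mul] at h1
    exact absurd h1 (not_lt.2 (by positivity))
  refine ⟨Q', ?_, hne, fun Q'' => hmax Q'' (mem_univ _)⟩
  obtain ⟨γ, hγ⟩ := hne
  rw [mem_filter] at hγ
  have hle : Q'.card ≤ g := by
    rw [← hM γ hγ.1]
    exact card_le_card hγ.2
  refine lt_of_le_of_ne hle fun he => ?_
  have hsub : M.filter (fun γ => Q' ⊆ γ) ⊆ {Q'} := by
    intro γ' hγ'
    rw [mem_filter] at hγ'
    rw [mem_singleton]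
    refine (eq_of_subset_of_card_le hγ'.2 ?_).symm
    rw [hM γ' hγ'.1, he]
  have hc : ((M.filter (fun γ => Q' ⊆ γ)).card : ℝ) ≤ 1 := by
    have := card_le_card hsub
    rw [card_singleton] at this
    exact_mod_cast this
  rw [he] at h1
  have : ((M.filter (fun γ => Q' ⊆ γ)).card : ℝ) * ρ ^ g ≤ 1 * ρ ^ g :=
    mul_le_mul_of_nonneg_right hc (by positivity)
  linarith

theorem enum_tup {P : Pl ν L} (U : Finset (Fin L)) (α : Fin L → ν) (Φ : Finset ν) (ρ : ℝ)
    (hρ : 0 < ρ) (M : Finset (Finset ν)) (hne : M.Nonempty) (Q : Finset ν) (g : ℕ)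
    (hM : ∀ γ ∈ M, γ.card = g ∧ Q ⊆ γ ∧ γ ⊆ P.Out ∧ Disjoint γ Φ ∧ Ad P.G U α γ)
    (hrate : ∀ Q'' : Finset ν, ((M.filter (fun γ => Q'' ⊆ γ)).card : ℝ) * ρ ^ Q''.card ≤
      (M.card : ℝ) * ρ ^ Q.card) :
    ∃ y : Finset ν → Fin (g - Q.card) → ν, Fam P U α (Φ ∪ Q) M y ρ ∧
      ∀ γ ∈ M, Q ∪ univ.image (y γ) = γ := by
  obtain ⟨γ0, hγ0⟩ := hne
  have hcard : ∀ γ ∈ M, (γ \ Q).card = g - Q.card := fun γ hγ => by
    rw [card_sdiff_of_subset (hM γ hγ).2.1, (hM γ hγ).1]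
  have hex : ∀ γ : Finset ν, ∃ f : Fin (g - Q.card) → ν, γ ∈ M →
      Function.Injective f ∧ univ.image f = γ \ Q := by
    intro γ
    by_cases h : γ ∈ M
    · refine ⟨fun j => (((γ \ Q).equivFinOfCardEq (hcard γ h)).symm j : ν), fun _ => ⟨?_, ?_⟩⟩
      · intro a b hab
        exact ((γ \ Q).equivFinOfCardEq (hcard γ h)).symm.injective (Subtype.ext hab)
      · ext v
        simp only [mem_image, mem_univ, true_and]
        constructor
        · rintro ⟨j, rfl⟩
          exact Subtype.prop _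
        · intro hv
          exact ⟨(γ \ Q).equivFinOfCardEq (hcard γ h) ⟨v, hv⟩, by simp⟩
    · refine ⟨fun j => (((γ0 \ Q).equivFinOfCardEq (hcard γ0 hγ0)).symm j : ν), fun h' => ?_⟩
      exact absurd h' h
  choose y hy using hex
  have hmem : ∀ γ ∈ M, ∀ j, y γ j ∈ γ \ Q := fun γ hγ j => by
    rw [← (hy γ hγ).2]
    exact mem_image_of_mem _ (mem_univ j)
  refine ⟨y, ⟨⟨γ0, hγ0⟩, fun γ hγ => (hy γ hγ).1, fun γ hγ j => ?_, fun γ hγ j => ?_,
    fun γ hγ j i hi => ?_, fun A q => ?_⟩, fun γ hγ => ?_⟩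
  · exact (hM γ hγ).2.2.1 (mem_sdiff.1 (hmem γ hγ j)).1
  · have h1 := mem_sdiff.1 (hmem γ hγ j)
    rw [mem_union, not_or]
    exact ⟨fun h2 => (Finset.disjoint_left.1 (hM γ hγ).2.2.2.1) h1.1 h2, h1.2⟩
  · exact (hM γ hγ).2.2.2.2 i hi _ (mem_sdiff.1 (hmem γ hγ j)).1
  · rcases (Pool.Agent.H82.RD.fam M y A q).eq_empty_or_nonempty with h0 | ⟨γ1, hγ1⟩
    · rw [h0]
      simp
    · rw [Pool.Agent.H82.RD.mem_fam] at hγ1
      have hinj : Set.InjOn q (A : Set (Fin (g - Q.card))) := by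
        intro a ha b hb hab
        apply (hy γ1 hγ1.1).1
        rw [hγ1.2 a (by exact_mod_cast ha), hγ1.2 b (by exact_mod_cast hb)]
        exact hab
      have hdis : Disjoint Q (A.image q) := by
        rw [Finset.disjoint_right]
        intro v hv
        rw [mem_image] at hv
        obtain ⟨a, ha, rfl⟩ := hv
        rw [← hγ1.2 a ha]
        exact (mem_sdiff.1 (hmem γ1 hγ1.1 a)).2
      have hQc : (Q ∪ A.image q).card = Q.card + A.card := by
        rw [card_union_of_disjoint hdis, card_image_of_injOn hinj]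
      have hsub : Pool.Agent.H82.RD.fam M y A q ⊆ M.filter (fun γ => Q ∪ A.image q ⊆ γ) := by
        intro γ hγ
        rw [Pool.Agent.H82.RD.mem_fam] at hγ
        rw [mem_filter]
        refine ⟨hγ.1, union_subset (hM γ hγ.1).2.1 ?_⟩
        intro v hv
        rw [mem_image] at hv
        obtain ⟨a, ha, rfl⟩ := hv
        rw [← hγ.2 a ha]
        exact (mem_sdiff.1 (hmem γ hγ.1 a)).1
      have h1 := hrate (Q ∪ A.image q)
      rw [hQc, pow_add] at h1
      have h2 : ((Pool.Agent.H82.RD.fam M y A q).card : ℝ) ≤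
          ((M.filter (fun γ => Q ∪ A.image q ⊆ γ)).card : ℝ) := by
        exact_mod_cast card_le_card hsub
      have hp : 0 < ρ ^ Q.card := by positivity
      have hpA : 0 < ρ ^ A.card := by positivity
      have h3 : (((M.filter (fun γ => Q ∪ A.image q ⊆ γ)).card : ℝ) * ρ ^ A.card) * ρ ^ Q.card ≤
          (M.card : ℝ) * ρ ^ Q.card := by
        calc _ = ((M.filter (fun γ => Q ∪ A.image q ⊆ γ)).card : ℝ) *
              (ρ ^ Q.card * ρ ^ A.card) := by ring
          _ ≤ _ := h1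
      have h4 := le_of_mul_le_mul_right h3 hp
      exact (mul_le_mul_of_nonneg_right h2 hpA.le).trans h4
  · rw [(hy γ hγ).2]
    exact union_sdiff_of_subset (hM γ hγ).2.1

end Pool.Agent.H49.RD
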