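/-
ROW RL_Hx (about 120 lines). Heavy sets over a subset `Q'` of `Q`, and the exceptional points (sections 6, 7). Uses heavy_card, exc_cells as stated.
heavy_ext. If `Q'' ∩ Q' ≠ ∅` the filter is empty (its members contain `Q''` but are disjoint from `Φ ∪ Q ⊇ Q'`) and the claim is `0 ≤ ρ'^g`. Otherwise `γ ↦ Q' ∪ γ` maps the filter injectively (`γ` disjoint from `Q'`) into `(HSet .. ∅ Φ U' β (#Q' + g)).filter (Q' ∪ Q'' ⊆ ·)` (`∅ ∪ γ' = γ'`; `Q' ⊆ Q ⊆ Out`, disjoint from `Φ`; `#(Q' ∪ γ) = #Q' + g ≤ w`).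
 heavy_card for `Q' ∪ Q''` (size `#Q' + #Q''`): `# ρ'^(#Q' + #Q'') ≤ ρ'^(#Q' + g)`; cancel `ρ'^#Q' > 0`.
heavy_exc. exc_cells with `B = Bp`, `M x = HSet P c G0 d #U Φ T Q' (Φ ∪ Q) U' x g`, cell `U, α, Φ ∪ Q`; hcongr: Heavy depends on `β` only through its values on `U'` (cell_congr, den_congr in SpB); hM: heavy_ext. `Bp ≥ 1`: `Bp ≥ (cm+1) B1 ≥ 1`; kBp.
-/
import Pool.Agent.H11.RD.Hv
import Pool.Agent.H11.RD.Exc

set_option autoImplicit false
set_option linter.unusedSectionVars false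

open Finset

namespace Pool.Agent.H49.RD

open Pool.Agent.H49.RG (Cl Ad Eqn nbr cell pts mem_cell mem_nbr mem_pts cell_sub cell_mono
  cell_anti cell_cell cell_eq)
open Pool.Agent.H82.RD (HH ZZ Vio MVio NoVio Fam natT)

variable {ν ω : Type} [Fintype ν] [DecidableEq ν] [DecidableEq ω] {L g : ℕ}

private theorem Hx_mem {P : Pl ν L} {c : Num} {G0 d : ℝ} {u : ℕ} {Φ : Finset ν}
    {T : Finset ν → Finset (Fin L → ν)} {Q' Ψ : Finset ν} {U' : Finset (Fin L)} {β : Fin L → ν}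
    {g : ℕ} {γ : Finset ν} :
    γ ∈ HSet P c G0 d u Φ T Q' Ψ U' β g ↔ γ.card = g ∧ γ ⊆ P.Out ∧ Disjoint γ Ψ ∧
      ∃ X, P.Heavy c G0 d u Φ T (Q' ∪ γ) U' β X := by
  simp [HSet]

private theorem Hx_Bp {c : Num} {R : ℕ} (hc : c.OK R L) : 1 ≤ c.Bp := by
  have h1 := hc.FBp
  have h2 := hc.B1_ge
  have h3 : (0 : ℝ) ≤ c.cm := Nat.cast_nonneg _
  nlinarith [mul_nonneg h3 (by linarith : (0 : ℝ) ≤ c.B1)]

private theorem Hx_heavy_congr {P : Pl ν L} {c : Num} {G0 d : ℝ} {u : ℕ} {Φ : Finset ν}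
    {T : Finset ν → Finset (Fin L → ν)} {γ : Finset ν} {U' : Finset (Fin L)} {x x' : Fin L → ν}
    {X : Finset (Fin L → ν)} (hx : Eqn U' x x') (hX : P.Heavy c G0 d u Φ T γ U' x X) :
    P.Heavy c G0 d u Φ T γ U' x' X := by
  obtain ⟨h1, h2, h3, h4⟩ := hX
  refine ⟨?_, h2, ?_, h4⟩
  · rw [← cell_congr P.G (T ∅) hx (Φ ∪ γ)]
    exact h1
  · rw [← den_congr P c X hx (Φ ∪ γ)]
    exact h3

private theorem Hx_HSet_congr {P : Pl ν L} {c : Num} {G0 d : ℝ} {u : ℕ} {Φ : Finset ν}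
    {T : Finset ν → Finset (Fin L → ν)} {Q' Ψ : Finset ν} {U' : Finset (Fin L)}
    {x x' : Fin L → ν} {g : ℕ} (hx : Eqn U' x x') :
    HSet P c G0 d u Φ T Q' Ψ U' x g = HSet P c G0 d u Φ T Q' Ψ U' x' g := by
  ext γ
  rw [Hx_mem, Hx_mem]
  constructor
  · rintro ⟨h1, h2, h3, X, hX⟩
    exact ⟨h1, h2, h3, X, Hx_heavy_congr hx hX⟩
  · rintro ⟨h1, h2, h3, X, hX⟩
    exact ⟨h1, h2, h3, X, Hx_heavy_congr (fun j hj => (hx j hj).symm) hX⟩

theorem heavy_ext {P : Pl ν L} {c : Num} {R : ℕ} (h : P.OK c) (hc : c.OK R L)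
    {A : Finset (Fin L → ν)} {U : Finset (Fin L)} {α : Fin L → ν} {Φ : Finset ν} {G0 : ℝ}
    (hA : P.Sp c A U α Φ c.Z1 G0) (hG0 : 1 ≤ G0) {T : Finset ν → Finset (Fin L → ν)}
    (hT : P.Tow c G0 A U α Φ T) {U' : Finset (Fin L)} (hU : U ⊆ U') (hUU' : U ≠ U')
    (β : Fin L → ν) (hΦc : Φ.card + c.w ≤ 3 * L) (Q Q' : Finset ν) (hQ : Q ⊆ P.Out)
    (hQΦ : Disjoint Q Φ) (hQ' : Q' ⊆ Q) (hgw : Q.card + g ≤ c.w) (Q'' : Finset ν) :
    (((HSet P c G0 (P.den c A U α Φ) U.card Φ T Q' (Φ ∪ Q) U' β g).filter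
      (fun γ => Q'' ⊆ γ)).card : ℝ) * rho c L U'.card c.Bp ^ Q''.card ≤
      rho c L U'.card c.Bp ^ g := by
  have hBp := Hx_Bp hc
  have hp := hc.p_pos
  set ρ := rho c L U'.card c.Bp with hρ
  have hρ0 : 0 < ρ := by
    rw [hρ]
    unfold rho
    positivity
  by_cases hd : Disjoint Q'' Q'
  · have key := heavy_card h hc hA hG0 hT hU hUU' β hΦc (g := Q'.card + g)
      (by have := card_le_card hQ'; omega) (Q' ∪ Q'')
    rw [← hρ] at key
    have hcard : (Q' ∪ Q'').card = Q'.card + Q''.card :=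
      card_union_of_disjoint hd.symm
    rw [hcard, pow_add, pow_add] at key
    have hle : ((HSet P c G0 (P.den c A U α Φ) U.card Φ T Q' (Φ ∪ Q) U' β g).filter
        (fun γ => Q'' ⊆ γ)).card ≤
        ((HSet P c G0 (P.den c A U α Φ) U.card Φ T ∅ Φ U' β (Q'.card + g)).filter
        (fun γ => Q' ∪ Q'' ⊆ γ)).card := by
      refine card_le_card_of_injOn (fun γ => Q' ∪ γ) ?_ ?_
      · intro γ hγ
        obtain ⟨h1, h2⟩ := mem_filter.1 (mem_coe.1 hγ)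
        obtain ⟨h3, h4, h5, X, hX⟩ := Hx_mem.1 h1
        refine mem_coe.2 (mem_filter.2 ⟨Hx_mem.2 ⟨?_, ?_, ?_, X, ?_⟩, ?_⟩)
        · have h6 : Disjoint Q' γ :=
            (h5.mono_right (hQ'.trans subset_union_right)).symm
          show (Q' ∪ γ).card = Q'.card + g
          rw [card_union_of_disjoint h6, h3]
        · exact union_subset (hQ'.trans hQ) h4
        · exact disjoint_union_left.2 ⟨hQΦ.mono_left hQ', h5.mono_right subset_union_left⟩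
        · show P.Heavy c G0 (P.den c A U α Φ) U.card Φ T (∅ ∪ (Q' ∪ γ)) U' β X
          rw [empty_union]
          exact hX
        · exact union_subset_union_right h2
      · intro γ hγ γ' hγ' heq
        obtain ⟨h1, h2⟩ := mem_filter.1 (mem_coe.1 hγ)
        obtain ⟨h3, h4, h5, -⟩ := Hx_mem.1 h1
        obtain ⟨h1', h2'⟩ := mem_filter.1 (mem_coe.1 hγ')
        obtain ⟨h3', h4', h5', -⟩ := Hx_mem.1 h1'
        have h6 : Disjoint Q' γ := (h5.mono_right (hQ'.trans subset_union_right)).symm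
        have h6' : Disjoint Q' γ' := (h5'.mono_right (hQ'.trans subset_union_right)).symm
        have h7 : Q' ∪ γ = Q' ∪ γ' := heq
        calc γ = (Q' ∪ γ) \ Q' := (union_sdiff_cancel_left h6).symm
          _ = (Q' ∪ γ') \ Q' := by rw [h7]
          _ = γ' := union_sdiff_cancel_left h6'
    have hle' : ((((HSet P c G0 (P.den c A U α Φ) U.card Φ T Q' (Φ ∪ Q) U' β g).filter
        (fun γ => Q'' ⊆ γ)).card : ℕ) : ℝ) ≤
        ((HSet P c G0 (P.den c A U α Φ) U.card Φ T ∅ Φ U' β (Q'.card + g)).filter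
        (fun γ => Q' ∪ Q'' ⊆ γ)).card := by exact_mod_cast hle
    have hρQ : 0 < ρ ^ Q'.card := pow_pos hρ0 _
    have hρQ'' : 0 < ρ ^ Q''.card := pow_pos hρ0 _
    have h8 := mul_le_mul_of_nonneg_right hle' (mul_pos hρQ hρQ'').le
    have h9 := h8.trans key
    refine le_of_mul_le_mul_left ?_ hρQ
    calc _ = _ := by ring
      _ ≤ _ := h9
  · have hemp : (HSet P c G0 (P.den c A U α Φ) U.card Φ T Q' (Φ ∪ Q) U' β g).filter
        (fun γ => Q'' ⊆ γ) = ∅ := by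
      rw [filter_eq_empty_iff]
      intro γ hγ hsub
      obtain ⟨h3, h4, h5, -⟩ := Hx_mem.1 hγ
      exact hd ((h5.mono_left hsub).mono_right (hQ'.trans subset_union_right))
    rw [hemp, card_empty, Nat.cast_zero, zero_mul]
    exact (pow_pos hρ0 _).le

open Classical in
theorem heavy_exc {P : Pl ν L} {c : Num} {R : ℕ} (h : P.OK c) (hc : c.OK R L)
    {A : Finset (Fin L → ν)} {U : Finset (Fin L)} {α : Fin L → ν} {Φ : Finset ν} {G0 : ℝ}
    (hA : P.Sp c A U α Φ c.Z1 G0) (hG0 : 1 ≤ G0) {T : Finset ν → Finset (Fin L → ν)}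
    (hT : P.Tow c G0 A U α Φ T) {U' : Finset (Fin L)} (hU : U ⊆ U') (hUU' : U ≠ U')
    (hΦc : Φ.card + c.w ≤ 3 * L) (Q Q' : Finset ν) (hQ : Q ⊆ P.Out)
    (hQΦ : Disjoint Q Φ) (hQ' : Q' ⊆ Q) (hg1 : 1 ≤ g) (hgw : Q.card + g ≤ c.w) :
    (((cell P.G (pts P.G P.V) U α (Φ ∪ Q)).filter (fun x =>
      c.Bp ^ (2 * g) < (((HSet P c G0 (P.den c A U α Φ) U.card Φ T Q' (Φ ∪ Q) U' x g).filter
        (fun γ => Ad P.G univ x γ)).card : ℝ))).card : ℝ) *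
      c.Bp ^ c.KX ≤ 128 ^ L * (cell P.G (pts P.G P.V) U α (Φ ∪ Q)).card := by
  have hBp := Hx_Bp hc
  refine exc_cells h hc c.Bp hBp hc.kBp U U' hU α (Φ ∪ Q) (union_subset hA.out hQ) ?_
    (fun x => HSet P c G0 (P.den c A U α Φ) U.card Φ T Q' (Φ ∪ Q) U' x g) g hg1 (by omega)
    (fun x x' hx => Hx_HSet_congr hx) ?_ ?_
  · have := card_union_le Φ Q
    omega
  · intro x γ hγ
    obtain ⟨h3, h4, h5, -⟩ := Hx_mem.1 hγ
    exact ⟨h4, h5, h3⟩
  · intro x _ Q''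
    exact heavy_ext h hc hA hG0 hT hU hUU' x hΦc Q Q' hQ hQΦ hQ' hgw Q''

end Pool.Agent.H49.RD
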